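import Pool.Agent.Y363.NT.NLa

/-!
Smooth hypersurfaces of large degree are not covered by lines.
-/

set_option autoImplicit false

open Polynomial Pool.Agent.Y184.NT Pool.Agent.Y653

namespace Pool.Agent.Y363.NT

/-- independent vectors have a nonzero minor -/
theorem exists_minor {M : Type} [Field M] {N : ℕ} {a b : Fin N → M}
    (h : LinearIndependent M ![a, b]) : ∃ i j, a i * b j - a j * b i ≠ 0 := by
  rw [LinearIndependent.pair_iff] at h
  by_contra hcon
  push Not at hcon
  have hb : b ≠ 0 := by
    rintro rfl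
    exact one_ne_zero (h 0 1 (by simp)).2
  obtain ⟨j, hj⟩ : ∃ j, b j ≠ 0 := by
    by_contra h'
    push Not at h'
    exact hb (funext h')
  have h1 := (h (b j) (-a j) (by
    funext i
    have := hcon i j
    simp only [Pi.add_apply, Pi.smul_apply, smul_eq_mul, Pi.zero_apply]
    linear_combination this)).1
  exact hj h1

theorem indep_of_minor {Ω : Type} [Field Ω] {N : ℕ} {a b : Fin N → Ω} {i j : Fin N}
    (h : a i * b j - a j * b i ≠ 0) : LinearIndependent Ω ![a, b] := by
  rw [LinearIndependent.pair_iff]
  intro s t hst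
  have h1 := congrFun hst i
  have h2 := congrFun hst j
  simp only [Pi.add_apply, Pi.smul_apply, smul_eq_mul, Pi.zero_apply] at h1 h2
  constructor
  · have h3 : s * (a i * b j - a j * b i) = 0 := by linear_combination b j * h1 - b i * h2
    exact (mul_eq_zero.1 h3).resolve_right h
  · have h3 : t * (a i * b j - a j * b i) = 0 := by linear_combination a i * h2 - a j * h1
    exact (mul_eq_zero.1 h3).resolve_right h

section

variable {M : Type} [Field M] [Algebra ℂ M]

/-- the gradient along the line is unimodular -/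
theorem exists_c {N : ℕ} {F : MvPolynomial (Fin N) ℂ} (hs : Sm F) {a b : Fin N → M}
    (h : LinearIndependent M ![a, b]) :
    ∃ c : Fin N → M[X], ∑ l, c l * MvPolynomial.aeval (lin a b) (MvPolynomial.pderiv l F) = 1 := by
  obtain ⟨i, j, hij⟩ := exists_minor h
  obtain ⟨K1, A, hA⟩ := null_cert hs i
  obtain ⟨K2, B, hB⟩ := null_cert hs j
  have hA' := congrArg (MvPolynomial.aeval (lin a b)) hA
  have hB' := congrArg (MvPolynomial.aeval (lin a b)) hB
  rw [map_pow, MvPolynomial.aeval_X, map_sum] at hA' hB'
  have hco : IsCoprime (lin a b i) (lin a b j) := by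
    refine ⟨C ((a i * b j - a j * b i)⁻¹ * b j), C (-((a i * b j - a j * b i)⁻¹ * b i)), ?_⟩
    unfold lin
    have h1 : C (a i * b j - a j * b i)⁻¹ * C (a i * b j - a j * b i) = (1 : M[X]) := by
      rw [← C_mul, inv_mul_cancel₀ hij, C_1]
    simp only [map_mul, map_sub, map_neg] at h1 ⊢
    linear_combination h1
  obtain ⟨u, v, huv⟩ := hco.pow (m := K1) (n := K2)
  refine ⟨fun l => u * MvPolynomial.aeval (lin a b) (A l) +
    v * MvPolynomial.aeval (lin a b) (B l), ?_⟩
  rw [← huv, hA', hB', Finset.mul_sum, Finset.mul_sum, ← Finset.sum_add_distrib]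
  refine Finset.sum_congr rfl fun l _ => ?_
  rw [map_mul, map_mul]
  ring

/-- the relations satisfied by the gradient along a line in the hypersurface -/
theorem rels {N d : ℕ} {F : MvPolynomial (Fin N) ℂ} (hF : F.IsHomogeneous d) {a b : Fin N → M}
    (h0 : restr F a b = 0) :
    (∑ l, C (a l) * MvPolynomial.aeval (lin a b) (MvPolynomial.pderiv l F) = 0) ∧
    (∑ l, C (b l) * MvPolynomial.aeval (lin a b) (MvPolynomial.pderiv l F) = 0) ∧
    ∀ E : Derivation ℂ M M, ∑ l, lin (fun j => E (a j)) (fun j => E (b j)) l *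
      MvPolynomial.aeval (lin a b) (MvPolynomial.pderiv l F) = 0 := by
  unfold restr at h0
  have hb : ∑ l, C (b l) * MvPolynomial.aeval (lin a b) (MvPolynomial.pderiv l F) = 0 := by
    have h1 := chain ((Polynomial.derivative' : Derivation M M[X] M[X]).restrictScalars ℂ)
      (lin a b) F
    rw [h0, map_zero] at h1
    rw [h1]
    refine Finset.sum_congr rfl fun l _ => ?_
    have h2 : ((Polynomial.derivative' : Derivation M M[X] M[X]).restrictScalars ℂ) (lin a b l) =
        C (b l) := by
      change Polynomial.derivative (lin a b l) = _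
      unfold lin
      rw [map_add, derivative_C, zero_add, derivative_mul, derivative_X, derivative_C, mul_zero,
        add_zero, one_mul]
    rw [h2, mul_comm]
  refine ⟨?_, hb, fun E => ?_⟩
  · have h1 := congrArg (MvPolynomial.aeval (lin a b)) hF.sum_X_mul_pderiv
    rw [map_sum, map_nsmul, h0, smul_zero] at h1
    have h2 : ∑ l, C (a l) * MvPolynomial.aeval (lin a b) (MvPolynomial.pderiv l F) =
        ∑ l, MvPolynomial.aeval (lin a b) (MvPolynomial.X l * MvPolynomial.pderiv l F) -
        X * ∑ l, C (b l) * MvPolynomial.aeval (lin a b) (MvPolynomial.pderiv l F) := by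
      rw [Finset.mul_sum, ← Finset.sum_sub_distrib]
      refine Finset.sum_congr rfl fun l _ => ?_
      rw [map_mul, MvPolynomial.aeval_X]
      unfold lin
      ring
    rw [h2, h1, hb, mul_zero, sub_zero]
  · have h1 := chain (cD E) (lin a b) F
    rw [h0, map_zero] at h1
    rw [h1]
    refine Finset.sum_congr rfl fun l _ => ?_
    have h2 : cD E (lin a b l) = lin (fun j => E (a j)) (fun j => E (b j)) l := by
      unfold lin
      rw [map_add, cD_C, Derivation.leibniz, cD_C]
      have h3 : cD E (X : M[X]) = 0 := by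
        have := cD_X_pow E 1
        rwa [pow_one] at this
      rw [h3, smul_zero, add_zero, smul_eq_mul]
    rw [h2, mul_comm]

end

/-- the determinant is linear in the first row -/
theorem det_cons_lin {R : Type} [CommRing R] {N : ℕ} (U : Fin N → Fin (N + 1) → R) :
    ∃ m : Fin (N + 1) → R, ∀ v : Fin (N + 1) → R,
      (Matrix.of (Fin.cons v U : Fin (N + 1) → Fin (N + 1) → R)).det = ∑ j, v j * m j := by
  refine ⟨fun j => (-1) ^ (j : ℕ) * (Matrix.of fun i k => U i (j.succAbove k)).det, fun v => ?_⟩
  rw [Matrix.det_succ_row_zero]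
  refine Finset.sum_congr rfl fun j _ => ?_
  have h1 : (Matrix.of (Fin.cons v U : Fin (N + 1) → Fin (N + 1) → R)) 0 j = v j := rfl
  have h2 : (Matrix.of (Fin.cons v U : Fin (N + 1) → Fin (N + 1) → R)).submatrix Fin.succ
      j.succAbove = Matrix.of fun i k => U i (j.succAbove k) := rfl
  rw [h1, h2]
  ring

theorem det_id {R : Type} [CommRing R] [IsDomain R] {N : ℕ} (U : Fin N → Fin (N + 1) → R)
    (g : Fin (N + 1) → R) (hU : ∀ i, ∑ j, U i j * g j = 0) (c : Fin (N + 1) → R)
    (hc : ∑ j, c j * g j = 1) (v : Fin (N + 1) → R) :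
    (Matrix.of (Fin.cons v U : Fin (N + 1) → Fin (N + 1) → R)).det =
      (∑ j, v j * g j) *
        (Matrix.of (Fin.cons c U : Fin (N + 1) → Fin (N + 1) → R)).det := by
  obtain ⟨m, hm⟩ := det_cons_lin U
  have hg : g ≠ 0 := by
    rintro rfl
    simp at hc
  have h0 : (Matrix.of (Fin.cons (fun j => v j - (∑ j, v j * g j) * c j) U :
      Fin (N + 1) → Fin (N + 1) → R)).det = 0 := by
    rw [← Matrix.exists_mulVec_eq_zero_iff]
    refine ⟨g, hg, ?_⟩
    funext i
    refine Fin.cases ?_ (fun i => ?_) i
    · change ∑ j, (v j - (∑ j, v j * g j) * c j) * g j = 0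
      have h1 : ∀ j, (v j - (∑ j, v j * g j) * c j) * g j =
          v j * g j - (∑ j, v j * g j) * (c j * g j) := fun j => by ring
      rw [Finset.sum_congr rfl fun j _ => h1 j, Finset.sum_sub_distrib, ← Finset.mul_sum, hc,
        mul_one, sub_self]
    · exact hU i
  rw [hm] at h0
  rw [hm, hm, ← sub_eq_zero, ← h0, Finset.mul_sum, ← Finset.sum_sub_distrib]
  refine Finset.sum_congr rfl fun j _ => ?_
  ring

/-- the choice of the rows -/
theorem exists_rows {M Ω : Type} [Field M] [Field Ω] [Algebra M Ω] (t : Ω) {N n : ℕ}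
    (a b : Fin (n + 2) → M) (g : Fin (n + 2) → M[X]) (w : Fin N → Fin (n + 2) → M[X])
    (hw : ∀ k j, (w k j).natDegree ≤ 1) (hga : ∑ j, C (a j) * g j = 0)
    (hgb : ∑ j, C (b j) * g j = 0) (hgw : ∀ k, ∑ j, w k j * g j = 0)
    (hab : LinearIndependent Ω ![fun j => algebraMap M Ω (a j), fun j => algebraMap M Ω (b j)])
    (hdim : ∀ S : Submodule Ω (Fin (n + 2) → Ω), (fun j => algebraMap M Ω (a j)) ∈ S →
      (fun j => algebraMap M Ω (b j)) ∈ S → (∀ k, (fun j => aeval t (w k j)) ∈ S) →
      n + 1 ≤ Module.finrank Ω S) (r : ℕ) (hr : 2 ≤ r) :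
    r ≤ n + 1 → ∃ (U : Fin r → Fin (n + 2) → M[X]) (e : Fin r → ℕ),
      (∀ i j, (U i j).natDegree ≤ e i) ∧ ∑ i, e i + 2 = r ∧ (∀ i, ∑ j, U i j * g j = 0) ∧
      LinearIndependent Ω (fun i j => aeval t (U i j)) ∧
      (fun j => algebraMap M Ω (a j)) ∈
        Submodule.span Ω (Set.range fun i j => aeval t (U i j)) ∧
      (fun j => algebraMap M Ω (b j)) ∈
        Submodule.span Ω (Set.range fun i j => aeval t (U i j)) := by
  induction r, hr using Nat.le_induction with
  | base =>
    intro _
    have hU : (fun i j => aeval t ((![fun j => C (a j), fun j => C (b j)] :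
        Fin 2 → Fin (n + 2) → M[X]) i j)) =
        ![fun j => algebraMap M Ω (a j), fun j => algebraMap M Ω (b j)] := by
      funext i
      fin_cases i
      · funext j
        exact aeval_C _ _
      · funext j
        exact aeval_C _ _
    refine ⟨![fun j => C (a j), fun j => C (b j)], ![0, 0], ?_, by simp, ?_, ?_, ?_, ?_⟩
    · intro i j
      fin_cases i
      · exact (natDegree_C _).le
      · exact (natDegree_C _).le
    · intro i
      fin_cases i
      · exact hga
      · exact hgb
    · rw [hU]
      exact hab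
    · rw [hU]
      exact Submodule.subset_span ⟨0, rfl⟩
    · rw [hU]
      exact Submodule.subset_span ⟨1, rfl⟩
  | succ r hr ih =>
    intro hrn
    obtain ⟨U, e, h1, h2, h3, h4, h5, h6⟩ := ih (by omega)
    obtain ⟨k, hk⟩ : ∃ k, (fun j => aeval t (w k j)) ∉
        Submodule.span Ω (Set.range fun i j => aeval t (U i j)) := by
      by_contra hcon
      push Not at hcon
      have h7 := hdim _ h5 h6 hcon
      have h8 : (Set.range fun i j => aeval t (U i j)).finrank Ω ≤ Fintype.card (Fin r) :=
        finrank_range_le_card _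
      rw [Fintype.card_fin] at h8
      have h9 : n + 1 ≤ r := h7.trans h8
      omega
    have hU : (fun i j => aeval t ((Fin.cons (w k) U : Fin (r + 1) → Fin (n + 2) → M[X]) i j)) =
        (Fin.cons (fun j => aeval t (w k j)) (fun i j => aeval t (U i j)) :
          Fin (r + 1) → Fin (n + 2) → Ω) := by
      funext i
      refine Fin.cases ?_ (fun i => ?_) i
      · rfl
      · rfl
    have hsub : Submodule.span Ω (Set.range fun i j => aeval t (U i j)) ≤
        Submodule.span Ω (Set.range
          (Fin.cons (fun j => aeval t (w k j)) (fun i j => aeval t (U i j)) :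
          Fin (r + 1) → Fin (n + 2) → Ω)) := by
      apply Submodule.span_mono
      rintro _ ⟨i, rfl⟩
      exact ⟨i.succ, rfl⟩
    refine ⟨Fin.cons (w k) U, Fin.cons 1 e, ?_, ?_, ?_, ?_, ?_, ?_⟩
    · intro i j
      refine Fin.cases ?_ (fun i => ?_) i
      · exact hw k j
      · exact h1 i j
    · rw [Fin.sum_cons]
      omega
    · intro i
      refine Fin.cases ?_ (fun i => ?_) i
      · exact hgw k
      · exact h3 i
    · rw [hU, linearIndependent_finCons]
      exact ⟨h4, hk⟩
    · rw [hU]
      exact hsub h5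
    · rw [hU]
      exact hsub h6

/-- the tangent vectors -/
theorem indep_tan {Ω : Type} [Field Ω] [Algebra ℂ Ω] {n : ℕ} (y : Fin (n + 2) → Ω)
    (j0 : Fin (n + 2)) (hj0 : y j0 ≠ 0) (s : Fin n → Fin (n + 2))
    (D : Fin n → Derivation ℂ Ω Ω)
    (hD : ∀ i j, D i (y (s j) / y j0) = if i = j then 1 else 0) :
    LinearIndependent Ω (Fin.cons y (fun i j => D i (y j)) : Fin (n + 1) → Fin (n + 2) → Ω) := by
  rw [Fintype.linearIndependent_iff]
  intro α hα
  have hα' : ∀ j, α 0 * y j + ∑ i : Fin n, α i.succ * D i (y j) = 0 := by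
    intro j
    have h1 := congrFun hα j
    rw [Finset.sum_apply, Fin.sum_univ_succ] at h1
    exact h1
  have h2 : ∀ j, α (Fin.succ j) = 0 := by
    intro j
    have e1 : ∀ i, D i (y (s j)) = (if i = j then y j0 else 0) +
        (y (s j) / y j0) * D i (y j0) := by
      intro i
      have e2 : y (s j) = (y (s j) / y j0) * y j0 := (div_mul_cancel₀ _ hj0).symm
      have e3 : D i (y (s j)) = D i ((y (s j) / y j0) * y j0) := by rw [← e2]
      rw [e3, Derivation.leibniz, hD, smul_eq_mul, smul_eq_mul]
      split_ifs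
      · ring
      · ring
    have h3 := hα' (s j)
    have h4 : ∑ i : Fin n, α i.succ * D i (y (s j)) = α j.succ * y j0 +
        (y (s j) / y j0) * ∑ i : Fin n, α i.succ * D i (y j0) := by
      rw [Finset.mul_sum]
      have h5 : ∀ i : Fin n, α i.succ * D i (y (s j)) =
          (if i = j then α i.succ * y j0 else 0) +
            (y (s j) / y j0) * (α i.succ * D i (y j0)) := by
        intro i
        rw [e1 i]
        split_ifs
        · ring
        · ring
      rw [Finset.sum_congr rfl fun i _ => h5 i, Finset.sum_add_distrib]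
      congr 1
      rw [Finset.sum_ite_eq' Finset.univ j, if_pos (Finset.mem_univ j)]
    rw [h4] at h3
    have h6 := hα' j0
    have h7 : α j.succ * y j0 = 0 := by
      have h8 : α 0 * y (s j) = (y (s j) / y j0) * (α 0 * y j0) := by
        field_simp
      rw [h8] at h3
      linear_combination h3 - (y (s j) / y j0) * h6
    exact (mul_eq_zero.1 h7).resolve_right hj0
  intro i
  refine Fin.cases ?_ (fun i => h2 i) i
  have h3 := hα' j0
  rw [Finset.sum_eq_zero fun i _ => by rw [h2 i, zero_mul], add_zero] at h3
  exact (mul_eq_zero.1 h3).resolve_right hj0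

/-- **StNL.** -/
theorem t_NL : StNL := by
  intro M _ _ N n d hn z hz F hS hF hnd a b hab Ω _ _ _ _ t y hy j0 hj0 s hs h0
  classical
  obtain ⟨D, hD⟩ := exists_dual hs
  choose E hE using fun i : Fin N => Pool.Agent.W602.GT.exists_der z hz
    (fun j => if i = j then 1 else 0)
  obtain ⟨hga, hgb, hgw⟩ := rels hF h0
  obtain ⟨c, hc⟩ := exists_c hS hab
  set g : Fin (n + 2) → M[X] := fun l =>
    MvPolynomial.aeval (lin a b) (MvPolynomial.pderiv l F) with hg
  set w : Fin N → Fin (n + 2) → M[X] := fun k =>
    lin (fun j => E k (a j)) (fun j => E k (b j)) with hw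
  have hwt : ∀ k j, aeval t (w k j) = algebraMap M Ω (E k (a j)) + t * algebraMap M Ω (E k (b j)) := by
    intro k j
    rw [hw]
    simp only [lin, map_add, map_mul, aeval_C, aeval_X]
  have habΩ : LinearIndependent Ω
      ![fun j => algebraMap M Ω (a j), fun j => algebraMap M Ω (b j)] := by
    obtain ⟨i, j, hij⟩ := exists_minor hab
    refine indep_of_minor (i := i) (j := j) ?_
    rw [← map_mul, ← map_mul, ← map_sub]
    exact fun h => hij ((map_eq_zero (algebraMap M Ω)).1 h)
  have hdim : ∀ S : Submodule Ω (Fin (n + 2) → Ω), (fun j => algebraMap M Ω (a j)) ∈ S →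
      (fun j => algebraMap M Ω (b j)) ∈ S → (∀ k, (fun j => aeval t (w k j)) ∈ S) →
      n + 1 ≤ Module.finrank Ω S := by
    intro S ha hb hwS
    have hind := indep_tan y j0 hj0 s D hD
    have hle : Submodule.span Ω (Set.range
        (Fin.cons y (fun i j => D i (y j)) : Fin (n + 1) → Fin (n + 2) → Ω)) ≤ S := by
      rw [Submodule.span_le]
      rintro _ ⟨i, rfl⟩
      refine Fin.cases ?_ (fun i => ?_) i
      · have e1 : y = (fun j => algebraMap M Ω (a j)) + t • (fun j => algebraMap M Ω (b j)) := by
          funext j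
          rw [hy j]
          rfl
        change y ∈ S
        rw [e1]
        exact S.add_mem ha (S.smul_mem t hb)
      · have e1 : (fun j => D i (y j)) = (∑ k, D i (algebraMap M Ω (z k)) •
            (fun j => aeval t (w k j))) + D i t • (fun j => algebraMap M Ω (b j)) := by
          funext j
          rw [hy j, map_add, Derivation.leibniz, der_expand (D i) z hz E hE (a j),
            der_expand (D i) z hz E hE (b j), Pi.add_apply, Finset.sum_apply, Pi.smul_apply]
          simp only [Pi.smul_apply, smul_eq_mul, hwt, mul_add, Finset.sum_add_distrib,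
            Finset.mul_sum]
          have e2 : ∀ k, t * (D i (algebraMap M Ω (z k)) * algebraMap M Ω (E k (b j))) =
              D i (algebraMap M Ω (z k)) * (t * algebraMap M Ω (E k (b j))) := fun k => by ring
          rw [Finset.sum_congr rfl fun k _ => e2 k]
          ring
        change (fun j => D i (y j)) ∈ S
        rw [e1]
        exact S.add_mem (S.sum_mem fun k _ => S.smul_mem _ (hwS k)) (S.smul_mem _ hb)
    have h1 := finrank_span_eq_card hind
    rw [Fintype.card_fin] at h1
    rw [← h1]
    exact Submodule.finrank_mono hle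
  obtain ⟨U, e, h1, h2, h3, h4, -, -⟩ := exists_rows t a b g w
    (fun k j => lin_natDegree _ _ j) hga hgb (fun k => hgw (E k)) habΩ hdim (n + 1) (by omega)
    le_rfl
  set lam := (Matrix.of (Fin.cons c U : Fin (n + 2) → Fin (n + 2) → M[X])).det with hlam
  have hlam0 : lam ≠ 0 := by
    intro h5
    have h6 := congrArg (aeval t) h5
    rw [map_zero, hlam, AlgHom.map_det] at h6
    have h7 : (aeval t).mapMatrix (Matrix.of (Fin.cons c U :
        Fin (n + 2) → Fin (n + 2) → M[X])) = Matrix.of
        (Fin.cons (fun j => aeval t (c j)) (fun i j => aeval t (U i j)) :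
          Fin (n + 2) → Fin (n + 2) → Ω) := by
      ext i j
      refine Fin.cases ?_ (fun i => ?_) i
      · rfl
      · rfl
    rw [h7] at h6
    have h8 : LinearIndependent Ω
        (Fin.cons (fun j => aeval t (c j)) (fun i j => aeval t (U i j)) :
          Fin (n + 2) → Fin (n + 2) → Ω) := by
      rw [linearIndependent_finCons]
      refine ⟨h4, fun hmem => ?_⟩
      have h9 : ∀ x ∈ Submodule.span Ω (Set.range fun i j => aeval t (U i j)),
          ∑ j, x j * aeval t (g j) = 0 := by
        intro x hx
        induction hx using Submodule.span_induction with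
        | mem x hx =>
          obtain ⟨i, rfl⟩ := hx
          have h10 := congrArg (aeval t) (h3 i)
          rw [map_zero, map_sum] at h10
          rw [← h10]
          exact Finset.sum_congr rfl fun j _ => (map_mul _ _ _).symm
        | zero => simp
        | add x x' _ _ hx hx' =>
          simp only [Pi.add_apply, add_mul, Finset.sum_add_distrib, hx, hx', add_zero]
        | smul r x _ hx =>
          simp only [Pi.smul_apply, smul_eq_mul, mul_assoc, ← Finset.mul_sum, hx, mul_zero]
      have h10 := h9 _ hmem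
      have h11 := congrArg (aeval t) hc
      rw [map_one, map_sum] at h11
      simp only [map_mul] at h11
      rw [h11] at h10
      exact one_ne_zero h10
    have h9 := Matrix.linearIndependent_rows_iff_isUnit.1 h8
    rw [Matrix.isUnit_iff_isUnit_det] at h9
    exact h9.ne_zero h6
  have hb0 : b ≠ 0 := by
    rintro rfl
    exact hab.ne_zero 1 rfl
  obtain ⟨l, hl⟩ := exists_pd hS hb0
  have hdl : (g l).coeff (d - 1) ≠ 0 := by
    rw [hg]
    simp only
    rw [coeff_restr (hF.pderiv (i := l)) a b]
    exact hl
  have hdeg : d - 1 ≤ (g l).natDegree := le_natDegree_of_ne_zero hdl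
  have hgl0 : g l ≠ 0 := by
    intro h5
    rw [h5, coeff_zero] at hdl
    exact hdl rfl
  have h5 := det_id U g h3 c hc (Pi.single l 1)
  have h6 : ∑ j, (Pi.single l (1 : M[X]) : Fin (n + 2) → M[X]) j * g j = g l := by
    rw [Finset.sum_eq_single l]
    · rw [Pi.single_eq_same, one_mul]
    · intro j _ hj
      rw [Pi.single_eq_of_ne hj, zero_mul]
    · intro h
      exact absurd (Finset.mem_univ l) h
  rw [h6] at h5
  have h7 := natDegree_det_le (Matrix.of (Fin.cons (Pi.single l (1 : M[X])) U :
    Fin (n + 2) → Fin (n + 2) → M[X])) (Fin.cons 0 e) (fun i j => by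
      refine Fin.cases ?_ (fun i => ?_) i
      · change ((Pi.single l (1 : M[X]) : Fin (n + 2) → M[X]) j).natDegree ≤ 0
        by_cases hj : j = l
        · subst hj
          rw [Pi.single_eq_same, natDegree_one]
        · rw [Pi.single_eq_of_ne hj, natDegree_zero]
      · exact h1 i j)
  rw [h5, natDegree_mul hgl0 hlam0, Fin.sum_cons] at h7
  omega

end Pool.Agent.Y363.NT
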