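import Mathlib
import Pool.Agent.Y517.NT.An

/-!
# Project NT: analytic functions which vanish on `T` vanish on the manifold `g = 0`
(inverse function theorem and S_FLAT)
-/

set_option autoImplicit false

open Set Filter Topology

noncomputable section

namespace Pool.Agent.Y363.NT

open Pool.Agent.Y517.NT

/-- Independent linear forms give a surjective map. -/
theorem surj_of_indep {F : Type} [NormedAddCommGroup F] [NormedSpace ℝ F] {r : ℕ}
    (l : Fin r → F →L[ℝ] ℝ) (h : LinearIndependent ℝ l) :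
    Function.Surjective (fun v : F => fun i => l i v) := by
  let L : F →ₗ[ℝ] (Fin r → ℝ) := LinearMap.pi fun i => (l i : F →ₗ[ℝ] ℝ)
  have hL : LinearMap.range L = ⊤ := by
    by_contra hne
    obtain ⟨f, hf, hle⟩ := Submodule.exists_le_ker_of_lt_top _ (lt_top_iff_ne_top.2 hne)
    apply hf
    have h1 : ∀ v, ∑ i, f (Pi.single i 1) * l i v = 0 := by
      intro v
      have h2 : f (L v) = 0 := hle ⟨v, rfl⟩
      have h3 : L v = ∑ i, (l i v) • (Pi.single i (1 : ℝ) : Fin r → ℝ) := by
        ext j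
        simp [L, Finset.sum_apply, Pi.single_apply]
      rw [h3, map_sum] at h2
      rw [← h2]
      refine Finset.sum_congr rfl fun i _ => ?_
      rw [map_smul, smul_eq_mul, mul_comm]
    have h4 := Fintype.linearIndependent_iff.1 h (fun i => f (Pi.single i 1)) (by
      ext v
      have := h1 v
      simpa using this)
    apply LinearMap.pi_ext'
    intro i
    ext
    simp only [LinearMap.coe_comp, Function.comp_apply, LinearMap.zero_apply]
    exact h4 i
  intro a
  obtain ⟨v, hv⟩ := LinearMap.range_eq_top.1 hL a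
  exact ⟨v, hv⟩

theorem t_MAN : S_FLAT → S_MAN := by
  intro hflat F _ _ _ V T r g hM x hx
  obtain ⟨hV, hga, hli, hgT, hmax⟩ := hM
  obtain ⟨hxT, hxV⟩ := hx
  let L : F →L[ℝ] (Fin r → ℝ) := ContinuousLinearMap.pi fun i => fderiv ℝ (g i) x
  let N : Submodule ℝ F := LinearMap.ker (L : F →ₗ[ℝ] (Fin r → ℝ))
  have hN : ∀ v : F, v ∈ N ↔ L v = 0 := fun v => LinearMap.mem_ker
  have hLs : Function.Surjective L := surj_of_indep _ (hli x hxV)
  obtain ⟨π₀, hπ₀⟩ := LinearMap.exists_leftInverse_of_injective N.subtype N.ker_subtype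
  let π : F →L[ℝ] N := LinearMap.toContinuousLinearMap π₀
  have hπ : ∀ n : N, π (n : F) = n := fun n => LinearMap.congr_fun hπ₀ n
  let M : F →L[ℝ] (Fin r → ℝ) × N := L.prod π
  have hbij : Function.Bijective M := by
    constructor
    · rw [injective_iff_map_eq_zero]
      intro v hv
      have h1 : L v = 0 := congrArg Prod.fst hv
      have h2 : π v = 0 := congrArg Prod.snd hv
      have h3 := hπ ⟨v, (hN v).2 h1⟩
      have h4 : (⟨v, (hN v).2 h1⟩ : N) = 0 := by
        rw [← h3]
        exact h2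
      exact congrArg Subtype.val h4
    · rintro ⟨a, n⟩
      obtain ⟨v, hv⟩ := hLs a
      refine ⟨v - (π v : F) + (n : F), ?_⟩
      have h1 : L (π v : F) = 0 := (hN _).1 (π v).2
      have h2 : L (n : F) = 0 := (hN _).1 n.2
      refine Prod.ext ?_ ?_
      · show L (v - (π v : F) + (n : F)) = a
        rw [map_add, map_sub, h1, h2, hv, sub_zero, add_zero]
      · show π (v - (π v : F) + (n : F)) = n
        rw [map_add, map_sub, hπ, hπ, sub_self, zero_add]
  let E : F ≃L[ℝ] (Fin r → ℝ) × N :=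
    (LinearEquiv.ofBijective (M : F →ₗ[ℝ] (Fin r → ℝ) × N) hbij).toContinuousLinearEquiv
  have hE : (E : F →L[ℝ] (Fin r → ℝ) × N) = M := by
    ext1 v
    rfl
  set Φ : F → (Fin r → ℝ) × N := fun y => (fun i => g i y, π (y - x)) with hΦ
  have hΦa : ∀ y ∈ V, AnalyticAt ℝ Φ y := by
    intro y hy
    refine AnalyticAt.prod ?_ ?_
    · exact AnalyticAt.pi fun i => hga i y hy
    · exact (π.analyticAt _).comp (analyticAt_id.sub analyticAt_const)
  have hΦd : HasStrictFDerivAt Φ (E : F →L[ℝ] (Fin r → ℝ) × N) x := by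
    rw [hE]
    refine HasStrictFDerivAt.prodMk ?_ ?_
    · exact hasStrictFDerivAt_pi.2 fun i => (hga i x hxV).hasStrictFDerivAt
    · have h1 : HasStrictFDerivAt (fun y : F => y - x) (ContinuousLinearMap.id ℝ F) x :=
        (hasStrictFDerivAt_id x).sub_const x
      have h2 : HasStrictFDerivAt (fun y : F => π (y - x))
          (π.comp (ContinuousLinearMap.id ℝ F)) x :=
        HasStrictFDerivAt.comp (g := π) (f := fun y : F => y - x) x
          (π.hasStrictFDerivAt (x := x - x)) h1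
      rwa [ContinuousLinearMap.comp_id] at h2
  set e := hΦd.toOpenPartialHomeomorph Φ with he
  have hecoe : ∀ y, e y = Φ y := fun y => rfl
  have hxs : x ∈ e.source := hΦd.mem_toOpenPartialHomeomorph_source
  have hΦx : Φ x = 0 := by
    refine Prod.ext ?_ ?_
    · funext i
      exact hgT x ⟨hxT, hxV⟩ i
    · show π (x - x) = 0
      rw [sub_self, map_zero]
  have hsyma : AnalyticAt ℝ e.symm 0 := by
    have h := e.analyticAt_symm' (i := E) hxs (hΦa x hxV) hΦd.hasFDerivAt.fderiv
    rwa [hecoe, hΦx] at h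
  have h0t : (0 : (Fin r → ℝ) × N) ∈ e.target := by
    have h := e.map_source hxs
    rwa [hecoe, hΦx] at h
  have hs0 : e.symm 0 = x := by
    have h := e.left_inv hxs
    rwa [hecoe, hΦx] at h
  obtain ⟨ε, hε, hball⟩ : ∃ ε > 0, ∀ z ∈ Metric.ball (0 : (Fin r → ℝ) × N) ε,
      z ∈ e.target ∧ AnalyticAt ℝ e.symm z ∧ e.symm z ∈ V := by
    have h1 : ∀ᶠ z in 𝓝 (0 : (Fin r → ℝ) × N), z ∈ e.target := e.open_target.mem_nhds h0t
    have h2 := hsyma.eventually_analyticAt
    have h3 : ∀ᶠ z in 𝓝 (0 : (Fin r → ℝ) × N), e.symm z ∈ V := by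
      apply hsyma.continuousAt
      rw [hs0]
      exact hV.mem_nhds hxV
    obtain ⟨ε, hε, h⟩ := Metric.eventually_nhds_iff_ball.1 (h1.and (h2.and h3))
    exact ⟨ε, hε, h⟩
  set V' : Set F := e.source ∩ e ⁻¹' (Metric.ball 0 ε) with hV'
  have hV'o : IsOpen V' := e.isOpen_inter_preimage Metric.isOpen_ball
  have hxV' : x ∈ V' := by
    refine ⟨hxs, ?_⟩
    rw [mem_preimage, hecoe, hΦx]
    exact Metric.mem_ball_self hε
  have hV'V : V' ⊆ V := by
    intro y hy
    have h := (hball _ hy.2).2.2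
    rwa [e.left_inv hy.1] at h
  set σ : N → F := fun w => e.symm (0, w) with hσ
  have hmem : ∀ w ∈ Metric.ball (0 : N) ε, ((0, w) : (Fin r → ℝ) × N) ∈ Metric.ball 0 ε := by
    intro w hw
    rw [mem_ball_zero_iff] at hw ⊢
    rw [Prod.norm_def]
    refine max_lt ?_ hw
    rw [norm_zero]
    exact hε
  have hπB : ∀ y ∈ V', π (y - x) ∈ Metric.ball (0 : N) ε := by
    intro y hy
    have h : ‖Φ y‖ < ε := mem_ball_zero_iff.1 hy.2
    rw [mem_ball_zero_iff]
    exact (norm_snd_le (Φ y)).trans_lt h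
  have hσV' : ∀ w ∈ Metric.ball (0 : N) ε, σ w ∈ V' := by
    intro w hw
    have h := hball _ (hmem w hw)
    refine ⟨e.map_target h.1, ?_⟩
    rw [mem_preimage, hσ]
    have h2 : e (e.symm (0, w)) = (0, w) := e.right_inv h.1
    rw [h2]
    exact hmem w hw
  have hΦσ : ∀ w ∈ Metric.ball (0 : N) ε, Φ (σ w) = (0, w) := by
    intro w hw
    exact e.right_inv (hball _ (hmem w hw)).1
  have hgσ : ∀ w ∈ Metric.ball (0 : N) ε, ∀ i, g i (σ w) = 0 := fun w hw i =>
    congrFun (congrArg Prod.fst (hΦσ w hw)) i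
  have hπσ : ∀ w ∈ Metric.ball (0 : N) ε, π (σ w - x) = w := fun w hw =>
    congrArg Prod.snd (hΦσ w hw)
  have hσπ : ∀ y ∈ V', (∀ i, g i y = 0) → σ (π (y - x)) = y := by
    intro y hy hg0
    have h1 : ((0, π (y - x)) : (Fin r → ℝ) × N) = e y := by
      refine Prod.ext ?_ rfl
      funext i
      exact (hg0 i).symm
    show e.symm (0, π (y - x)) = y
    rw [h1, e.left_inv hy.1]
  have hσa : ∀ w ∈ Metric.ball (0 : N) ε, AnalyticAt ℝ σ w := by
    intro w hw
    have h1 : AnalyticAt ℝ (fun w : N => ((0, w) : (Fin r → ℝ) × N)) w :=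
      analyticAt_const.prod analyticAt_id
    exact AnalyticAt.comp (g := e.symm) (f := fun w : N => ((0, w) : (Fin r → ℝ) × N))
      (hball _ (hmem w hw)).2.1 h1
  set Tt : Set N := {w | w ∈ Metric.ball (0 : N) ε ∧ σ w ∈ T} with hTt
  have hkey := hflat N (Metric.ball (0 : N) ε) Tt Metric.isOpen_ball
    (convex_ball (0 : N) ε).isPreconnected (fun w hw => hw.1)
    ⟨0, Metric.mem_ball_self hε, by
      show e.symm 0 ∈ T
      rw [hs0]
      exact hxT⟩ (by
    intro φ hφa hφ0 w hw
    obtain ⟨hwB, hwT⟩ := hw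
    have h1 : AnalyticOnNhd ℝ (fun y => φ (π (y - x))) V' := by
      intro y hy
      have h2 : AnalyticAt ℝ (fun y : F => π (y - x)) y :=
        (π.analyticAt _).comp (analyticAt_id.sub analyticAt_const)
      exact AnalyticAt.comp (g := φ) (f := fun y : F => π (y - x)) (hφa _ (hπB y hy)) h2
    have h2 : ∀ y ∈ T ∩ V', φ (π (y - x)) = 0 := by
      intro y hy
      refine hφ0 _ ⟨hπB y hy.2, ?_⟩
      rw [hσπ y hy.2 (hgT y ⟨hy.1, hV'V hy.2⟩)]
      exact hy.1
    have h3 := hmax V' _ hV'o hV'V h1 h2 (σ w) ⟨hwT, hσV' w hwB⟩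
    have hσd : HasFDerivAt σ (fderiv ℝ σ w) w := (hσa w hwB).differentiableAt.hasFDerivAt
    have h4 : ∀ l ∈ Submodule.span ℝ (Set.range fun i => fderiv ℝ (g i) (σ w)),
        l.comp (fderiv ℝ σ w) = 0 := by
      intro l hl
      induction hl using Submodule.span_induction with
      | mem l hl =>
        obtain ⟨i, rfl⟩ := hl
        have h5 : HasFDerivAt (g i) (fderiv ℝ (g i) (σ w)) (σ w) :=
          (hga i _ (hV'V (hσV' w hwB))).differentiableAt.hasFDerivAt
        have h6 := h5.comp w hσd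
        have h7 : HasFDerivAt (g i ∘ σ) (0 : N →L[ℝ] ℝ) w := by
          refine (hasFDerivAt_const (0 : ℝ) w).congr_of_eventuallyEq ?_
          filter_upwards [Metric.isOpen_ball.mem_nhds hwB] with w' hw'
          exact hgσ w' hw' i
        exact h6.unique h7
      | zero => exact ContinuousLinearMap.zero_comp _
      | add l₁ l₂ _ _ h1 h2 => rw [ContinuousLinearMap.add_comp, h1, h2, add_zero]
      | smul c l _ h1 => rw [ContinuousLinearMap.smul_comp, h1, smul_zero]
    have h5 : HasFDerivAt (fun y => φ (π (y - x)))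
        (fderiv ℝ (fun y => φ (π (y - x))) (σ w)) (σ w) :=
      (h1 _ (hσV' w hwB)).differentiableAt.hasFDerivAt
    have h6 := h5.comp w hσd
    rw [h4 _ h3] at h6
    have h7 : HasFDerivAt φ (0 : N →L[ℝ] ℝ) w := by
      refine h6.congr_of_eventuallyEq ?_
      filter_upwards [Metric.isOpen_ball.mem_nhds hwB] with w' hw'
      show φ w' = φ (π (σ w' - x))
      rw [hπσ w' hw']
    exact h7.fderiv)
  refine ⟨V', hV'o, hxV', hV'V, ?_⟩
  intro φ hφa hφ0 y hy hgy
  have h1 := hkey (fun w => φ (σ w)) (fun w hw =>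
    AnalyticAt.comp (g := φ) (f := σ) (hφa _ (hσV' w hw)) (hσa w hw))
    (fun w hw => hφ0 _ ⟨hw.2, hσV' w hw.1⟩) (π (y - x)) (hπB y hy)
  rw [hσπ y hy hgy] at h1
  exact h1

end Pool.Agent.Y363.NT
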