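import Pool.Agent.Y184.NT.St
import Pool.Agent.Y653.KDer
import Pool.Agent.W602.GT.Der

/-!
Tools: derivations of algebraic extensions, certificates for smooth forms, leading coefficients,
degrees of determinants.
-/

set_option autoImplicit false

open Polynomial

namespace Pool.Agent.Y363.NT

/-! ### derivations -/

section der

variable {M Ω : Type} [Field M] [Field Ω] [Algebra ℂ M] [Algebra ℂ Ω] [Algebra M Ω]
  [IsScalarTower ℂ M Ω]

/-- the constants -/
noncomputable def cst (D : Derivation ℂ M Ω) : IntermediateField ℂ M where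
  carrier := {x | D x = 0}
  mul_mem' := by
    intro a b ha hb
    simp only [Set.mem_ofPred_eq] at ha hb ⊢
    rw [D.leibniz, ha, hb]; simp
  add_mem' := by
    intro a b ha hb
    simp only [Set.mem_ofPred_eq] at ha hb ⊢
    rw [map_add, ha, hb, add_zero]
  algebraMap_mem' := fun r => D.map_algebraMap r
  inv_mem' := by
    intro a ha
    simp only [Set.mem_ofPred_eq] at ha ⊢
    rw [D.leibniz_inv, ha]; simp

/-- linear over the constants -/
noncomputable def overCst (D : Derivation ℂ M Ω) : Derivation (cst D) M Ω :=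
  Derivation.mk'
    { toFun := fun x => D x
      map_add' := fun x y => map_add D x y
      map_smul' := fun c x => by
        have h : D (c : M) = 0 := c.2
        change D ((c : M) * x) = (c : M) • D x
        rw [D.leibniz, h]; simp }
    (fun x y => D.leibniz x y)

theorem overCst_apply (D : Derivation ℂ M Ω) (x : M) : overCst D x = D x := rfl

theorem der_zero (D : Derivation ℂ M Ω) {N : ℕ} (z : Fin N → M) (hz : IsTranscendenceBasis ℂ z)
    (h : ∀ i, D (z i) = 0) (f : M) : D f = 0 := by
  have halg0 : Algebra.IsAlgebraic (IntermediateField.adjoin ℂ (Set.range z)) M :=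
    hz.isAlgebraic_field
  have hle : IntermediateField.adjoin ℂ (Set.range z) ≤ cst D := by
    rw [IntermediateField.adjoin_le_iff]
    rintro _ ⟨i, rfl⟩
    exact h i
  have halg : Algebra.IsAlgebraic (cst D) M := by
    let _ : Algebra (IntermediateField.adjoin ℂ (Set.range z)) (cst D) :=
      (IntermediateField.inclusion hle).toRingHom.toAlgebra
    have : IsScalarTower (IntermediateField.adjoin ℂ (Set.range z)) (cst D) M :=
      IsScalarTower.of_algebraMap_eq fun x => rfl
    exact Algebra.IsAlgebraic.extendScalars (R := IntermediateField.adjoin ℂ (Set.range z))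
      (IntermediateField.inclusion hle).toRingHom.injective
  have hint : IsIntegral (cst D) f := (halg.isAlgebraic f).isIntegral
  have hchar : CharZero (cst D) := charZero_of_injective_algebraMap
    (algebraMap ℂ (cst D)).injective
  have h1 : overCst D (Polynomial.aeval f (minpoly (cst D) f)) = 0 := by
    rw [minpoly.aeval, map_zero]
  rw [Derivation.map_aeval] at h1
  have h2 : Polynomial.aeval f (Polynomial.derivative (minpoly (cst D) f)) ≠ 0 :=
    (minpoly.irreducible hint).separable.aeval_derivative_ne_zero (minpoly.aeval _ _)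
  rw [overCst_apply] at h1
  exact (smul_eq_zero.mp h1).resolve_left h2

/-- derivations in terms of the values on a transcendence basis -/
theorem der_expand (D : Derivation ℂ Ω Ω) {N : ℕ} (z : Fin N → M)
    (hz : IsTranscendenceBasis ℂ z) (E : Fin N → Derivation ℂ M M)
    (hE : ∀ i j, E i (z j) = if i = j then 1 else 0) (x : M) :
    D (algebraMap M Ω x) = ∑ k, D (algebraMap M Ω (z k)) * algebraMap M Ω (E k x) := by
  classical
  let D' : Derivation ℂ M Ω := Derivation.mk'
    { toFun := fun x => D (algebraMap M Ω x) -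
        ∑ k, D (algebraMap M Ω (z k)) * algebraMap M Ω (E k x)
      map_add' := fun x y => by
        simp only [map_add, mul_add, Finset.sum_add_distrib]
        ring
      map_smul' := fun c x => by
        have h1 : algebraMap M Ω (c • x) = c • algebraMap M Ω x := by
          rw [Algebra.smul_def, map_mul, ← IsScalarTower.algebraMap_apply, ← Algebra.smul_def]
        have h2 : ∀ k, algebraMap M Ω (E k (c • x)) = c • algebraMap M Ω (E k x) := by
          intro k
          rw [(E k).map_smul, Algebra.smul_def, map_mul, ← IsScalarTower.algebraMap_apply,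
            ← Algebra.smul_def]
        simp only [h1, h2, D.map_smul, RingHom.id_apply, smul_sub, Finset.smul_sum,
          mul_smul_comm] }
    (fun x y => by
      change D (algebraMap M Ω (x * y)) -
        ∑ k, D (algebraMap M Ω (z k)) * algebraMap M Ω (E k (x * y)) =
        x • (D (algebraMap M Ω y) - ∑ k, D (algebraMap M Ω (z k)) * algebraMap M Ω (E k y)) +
        y • (D (algebraMap M Ω x) - ∑ k, D (algebraMap M Ω (z k)) * algebraMap M Ω (E k x))
      simp only [map_mul, Derivation.leibniz, map_add, smul_eq_mul, Algebra.smul_def, mul_sub,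
        Finset.mul_sum, mul_add, Finset.sum_add_distrib]
      have h1 : ∀ a b c : Ω, a * (b * c) = b * (a * c) := fun a b c => by ring
      simp only [h1 (D _) (algebraMap M Ω x), h1 (D _) (algebraMap M Ω y)]
      ring)
  have h := der_zero D' z hz (fun i => by
    change D (algebraMap M Ω (z i)) -
      ∑ k, D (algebraMap M Ω (z k)) * algebraMap M Ω (E k (z i)) = 0
    simp only [hE]
    rw [Finset.sum_eq_single i]
    · simp
    · intro k _ hk
      rw [if_neg hk, map_zero, mul_zero]
    · intro h
      exact absurd (Finset.mem_univ i) h) x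
  exact sub_eq_zero.1 h

end der

/-- derivations dual to an algebraically independent family -/
theorem exists_dual {Ω ι : Type} [Field Ω] [Algebra ℂ Ω] [DecidableEq ι] {f : ι → Ω}
    (hf : AlgebraicIndependent ℂ f) :
    ∃ D : ι → Derivation ℂ Ω Ω, ∀ i j, D i (f j) = if i = j then 1 else 0 := by
  classical
  obtain ⟨s, hs, hs'⟩ := exists_isTranscendenceBasis_superset (R := ℂ) hf.to_subtype_range
  choose D hD using fun i : ι => Pool.Agent.W602.GT.exists_der (fun x : s => (x : Ω)) hs'
    (fun x => if (x : Ω) = f i then 1 else 0)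
  refine ⟨D, fun i j => ?_⟩
  have h1 := hD i ⟨f j, hs ⟨j, rfl⟩⟩
  simp only at h1
  rw [h1]
  by_cases hij : i = j
  · rw [if_pos hij, if_pos (by rw [hij])]
  · rw [if_neg hij, if_neg]
    intro h2
    exact hij (hf.injective h2).symm

/-! ### certificates -/

open MvPolynomial in
theorem null_cert {m : ℕ} {F : MvPolynomial (Fin m) ℂ} (hs : Pool.Agent.Y184.NT.Sm F) (j : Fin m) :
    ∃ (M : ℕ) (A : Fin m → MvPolynomial (Fin m) ℂ),
      (MvPolynomial.X j : MvPolynomial (Fin m) ℂ) ^ M = ∑ l, A l * pderiv l F := by
  classical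
  obtain ⟨I, hI⟩ : ∃ I : Ideal (MvPolynomial (Fin m) ℂ),
    I = Ideal.span (Set.range fun l => pderiv l F) := ⟨_, rfl⟩
  have h1 : (MvPolynomial.X j : MvPolynomial (Fin m) ℂ) ∈
      vanishingIdeal ℂ (zeroLocus ℂ I) := by
    rw [mem_vanishingIdeal_iff]
    intro x hx
    have hx0 : x = 0 := by
      by_contra hne
      obtain ⟨l, hl⟩ := hs x hne
      apply hl
      rw [mem_zeroLocus_iff] at hx
      have h2 := hx (pderiv l F) (by rw [hI]; exact Ideal.subset_span ⟨l, rfl⟩)
      exact h2
    rw [hx0, MvPolynomial.aeval_X]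
    rfl
  rw [vanishingIdeal_zeroLocus_eq_radical] at h1
  obtain ⟨M, hM⟩ := h1
  rw [hI, Ideal.mem_span_range_iff_exists_fun] at hM
  obtain ⟨A, hA⟩ := hM
  exact ⟨M, A, hA.symm⟩

/-- a nonzero vector is not a singular zero -/
theorem exists_pd {m : ℕ} {F : MvPolynomial (Fin m) ℂ} (hs : Pool.Agent.Y184.NT.Sm F)
    {M : Type} [Field M] [Algebra ℂ M] {b : Fin m → M} (hb : b ≠ 0) :
    ∃ l, MvPolynomial.aeval b (MvPolynomial.pderiv l F) ≠ 0 := by
  by_contra hcon
  push Not at hcon
  obtain ⟨j, hj⟩ : ∃ j, b j ≠ 0 := by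
    by_contra h
    push Not at h
    exact hb (funext h)
  obtain ⟨K, A, hA⟩ := null_cert hs j
  have h1 := congrArg (MvPolynomial.aeval b) hA
  rw [map_pow, MvPolynomial.aeval_X, map_sum] at h1
  have h2 : b j ^ K = 0 := by
    rw [h1]
    refine Finset.sum_eq_zero fun l _ => ?_
    rw [map_mul, hcon l, mul_zero]
  exact hj (eq_zero_of_pow_eq_zero h2)

section poly

variable {M : Type} [Field M]

/-- coefficients of products -/
theorem coeff_prod_le {ι : Type} (s : Finset ι) (p : ι → M[X]) (e : ι → ℕ)
    (h : ∀ i ∈ s, (p i).natDegree ≤ e i) :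
    (∏ i ∈ s, p i).natDegree ≤ ∑ i ∈ s, e i ∧
      (∏ i ∈ s, p i).coeff (∑ i ∈ s, e i) = ∏ i ∈ s, (p i).coeff (e i) := by
  classical
  induction s using Finset.induction_on with
  | empty => simp
  | insert i s his ih =>
    obtain ⟨h1, h2⟩ := ih fun j hj => h j (Finset.mem_insert_of_mem hj)
    have h3 := h i (Finset.mem_insert_self i s)
    rw [Finset.prod_insert his, Finset.sum_insert his, Finset.prod_insert his]
    refine ⟨(natDegree_mul_le).trans (add_le_add h3 h1), ?_⟩
    rw [coeff_mul_add_eq_of_natDegree_le h3 h1, h2]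

theorem lin_natDegree {N : ℕ} (a b : Fin N → M) (j : Fin N) :
    (Pool.Agent.Y184.NT.lin a b j).natDegree ≤ 1 := by
  unfold Pool.Agent.Y184.NT.lin
  refine (natDegree_add_le _ _).trans (max_le ?_ ?_)
  · rw [natDegree_C]
    exact zero_le_one
  · refine natDegree_mul_le.trans ?_
    rw [natDegree_C, natDegree_X]

theorem lin_coeff {N : ℕ} (a b : Fin N → M) (j : Fin N) :
    (Pool.Agent.Y184.NT.lin a b j).coeff 1 = b j := by
  unfold Pool.Agent.Y184.NT.lin
  rw [coeff_add, coeff_C_succ, zero_add]
  have := coeff_X_mul (C (b j)) 0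
  rw [zero_add] at this
  rw [this, coeff_C_zero]

/-- the leading coefficient of the restriction to a line -/
theorem coeff_restr [Algebra ℂ M] {N e : ℕ} {G : MvPolynomial (Fin N) ℂ}
    (hG : G.IsHomogeneous e) (a b : Fin N → M) :
    (MvPolynomial.aeval (Pool.Agent.Y184.NT.lin a b) G).coeff e = MvPolynomial.aeval b G := by
  classical
  rw [MvPolynomial.aeval_def, MvPolynomial.eval₂_eq', finsetSum_coeff, MvPolynomial.aeval_def,
    MvPolynomial.eval₂_eq']
  refine Finset.sum_congr rfl fun m hm => ?_
  have h1 : ∑ i, m i = e := by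
    have h2 := hG (MvPolynomial.mem_support_iff.1 hm)
    rw [← h2, Finsupp.weight_apply, Finsupp.sum_fintype _ _ fun i => by simp]
    simp
  have h3 : algebraMap ℂ M[X] (MvPolynomial.coeff m G) =
      C (algebraMap ℂ M (MvPolynomial.coeff m G)) := rfl
  rw [h3, coeff_C_mul]
  congr 1
  have h4 := (coeff_prod_le Finset.univ
    (fun i => (Pool.Agent.Y184.NT.lin a b i) ^ m i) (fun i => m i) (fun i _ => by
      have h5 := natDegree_pow_le_of_le (m i) (lin_natDegree a b i)
      rwa [mul_one] at h5)).2
  rw [h1] at h4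
  rw [h4]
  refine Finset.prod_congr rfl fun i _ => ?_
  have h6 := coeff_pow_of_natDegree_le (m := m i) (lin_natDegree a b i)
  rw [mul_one, lin_coeff] at h6
  exact h6

/-- the degree of a determinant -/
theorem natDegree_det_le {N : ℕ} (A : Matrix (Fin N) (Fin N) M[X]) (e : Fin N → ℕ)
    (h : ∀ i j, (A i j).natDegree ≤ e i) : A.det.natDegree ≤ ∑ i, e i := by
  classical
  rw [Matrix.det_apply]
  refine natDegree_sum_le_of_forall_le _ _ fun σ _ => ?_
  refine (natDegree_smul_le _ _).trans ?_
  have h1 := (coeff_prod_le Finset.univ (fun i => A (σ i) i) (fun i => e (σ i))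
    (fun i _ => h (σ i) i)).1
  refine h1.trans (le_of_eq ?_)
  exact Equiv.sum_comp σ e

end poly

end Pool.Agent.Y363.NT
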